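import Pool.Agent.H447.QR.Stm
import Pool.Graph.R_pool_sql_team_seeded_3997aac3.Q286.EQ.MW
import Pool.Graph.R_seed8.TeamU.B1

/-!
# MW: the Mordell-Weil group and its classes modulo doubles (helper116)
-/

set_option autoImplicit false

open WeierstrassCurve

namespace Pool.Agent.H116.QR.MW

open Pool.Agent.H447.QR

theorem crv_disc (a b : ℚ) : (crv a b).Δ = -16 * (4 * a ^ 3 + 27 * b ^ 2) := by
  simp only [WeierstrassCurve.Δ, WeierstrassCurve.b₂, WeierstrassCurve.b₄, WeierstrassCurve.b₆,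
    WeierstrassCurve.b₈]
  ring

theorem disc_ne {a b : ℤ} (h : 4 * a ^ 3 + 27 * b ^ 2 ≠ 0) :
    (crv (a : ℚ) (b : ℚ)).Δ ≠ 0 := by
  rw [crv_disc]
  have h1 : (4 * (a : ℚ) ^ 3 + 27 * (b : ℚ) ^ 2) ≠ 0 := by exact_mod_cast h
  exact mul_ne_zero (by norm_num) h1

theorem eqn_iff (a b x y : ℚ) :
    (crv a b).toAffine.Equation x y ↔ y ^ 2 = x ^ 3 + a * x + b := by
  rw [WeierstrassCurve.Affine.equation_iff]
  simp

/-- the integral roots -/
abbrev Rt (a b : ℤ) : Type := {x : ℤ // x ^ 3 + a * x + b = 0}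

theorem root_int {a b : ℤ} {x : ℚ} (h : x ^ 3 + a * x + b = 0) : ∃ z : ℤ, (z : ℚ) = x := by
  have hi : IsIntegral ℤ x := by
    refine ⟨Polynomial.X ^ 3 + Polynomial.C a * Polynomial.X + Polynomial.C b, ?_, ?_⟩
    · monicity!
    · simp only [Polynomial.eval₂_add, Polynomial.eval₂_mul, Polynomial.eval₂_pow,
        Polynomial.eval₂_X, Polynomial.eval₂_C]
      simpa using h
  obtain ⟨z, hz⟩ := IsIntegrallyClosed.isIntegral_iff.1 hi
  exact ⟨z, by simpa using hz⟩

theorem root_bd {a b x : ℤ} (h : x ^ 3 + a * x + b = 0) : |x| ≤ |a| + |b| := by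
  by_contra hcon
  push Not at hcon
  have h1 : |x| ^ 3 ≤ |a| * |x| + |b| := by
    have h2 : x ^ 3 = -(a * x + b) := by linarith
    calc |x| ^ 3 = |x ^ 3| := (abs_pow x 3).symm
      _ = |a * x + b| := by rw [h2, abs_neg]
      _ ≤ |a * x| + |b| := abs_add_le _ _
      _ = |a| * |x| + |b| := by rw [abs_mul]
  have ha := abs_nonneg a
  have hb := abs_nonneg b
  have hx : 1 ≤ |x| := by linarith
  have h3 : |a| + |b| + 1 ≤ |x| := hcon
  have h4 : |b| ≤ |b| * |x| := by nlinarith
  have h5 : (|a| + |b| + 1) * |x| ≤ |x| * |x| := mul_le_mul_of_nonneg_right h3 (by linarith)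
  have h6 : |x| * |x| ≤ |x| ^ 3 := by
    have : |x| ^ 3 = |x| * |x| * |x| := by ring
    rw [this]
    nlinarith [mul_nonneg (show (0:ℤ) ≤ |x| * |x| by positivity) (show (0:ℤ) ≤ |x| - 1 by linarith)]
  nlinarith

theorem card_Rt (a b : ℤ) : Nat.card (Rt a b) = nrt a b := by
  classical
  set m : ℕ := a.natAbs + b.natAbs + 1 with hm
  set l : List ℕ := (List.range (2 * m + 1)).filter (fun i : ℕ =>
    decide (((i : ℤ) - m) ^ 3 + a * ((i : ℤ) - m) + b = 0)) with hl
  have hnd : l.Nodup := List.Nodup.filter _ List.nodup_range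
  have hlen : nrt a b = l.length := by
    unfold nrt
    rw [hl]
    simp only [hm]
    push_cast
    rfl
  rw [hlen, ← List.toFinset_card_of_nodup hnd, ← Fintype.card_coe, ← Nat.card_eq_fintype_card]
  have hmem : ∀ i : ℕ, i ∈ l.toFinset ↔ i < 2 * m + 1 ∧
      ((i : ℤ) - m) ^ 3 + a * ((i : ℤ) - m) + b = 0 := by
    intro i
    rw [List.mem_toFinset, hl, List.mem_filter, List.mem_range, decide_eq_true_iff]
  have hbd : ∀ x : Rt a b, 0 ≤ x.1 + m ∧ x.1 + m < 2 * m + 1 := by
    intro x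
    have h := abs_le.1 (root_bd x.2)
    have h1 : (m : ℤ) = |a| + |b| + 1 := by
      rw [hm]
      push_cast
      rfl
    constructor
    · linarith [h.1]
    · linarith [h.2]
  refine Nat.card_congr ⟨fun x => ⟨(x.1 + m).toNat, ?_⟩, fun i => ⟨(i.1 : ℤ) - m, ?_⟩, ?_, ?_⟩
  · rw [hmem]
    have h := hbd x
    refine ⟨by omega, ?_⟩
    rw [Int.toNat_of_nonneg h.1, add_sub_cancel_right]
    exact x.2
  · exact ((hmem i.1).1 i.2).2
  · intro x
    apply Subtype.ext
    simp only
    rw [Int.toNat_of_nonneg (hbd x).1, add_sub_cancel_right]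
  · intro i
    apply Subtype.ext
    simp

/-- the two-torsion -/
theorem ker_card {a b : ℤ} (h : 4 * a ^ 3 + 27 * b ^ 2 ≠ 0) :
    Nat.card ((zsmulAddGroupHom (α := Pt (a : ℚ) (b : ℚ)) 2).ker) = 1 + nrt a b := by
  classical
  have hΔ := disc_ne h
  have hns : ∀ x : Rt a b, (crv (a : ℚ) (b : ℚ)).toAffine.Nonsingular (x.1 : ℚ) 0 := by
    intro x
    refine (WeierstrassCurve.Affine.equation_iff_nonsingular_of_Δ_ne_zero hΔ).1 ?_
    rw [eqn_iff]
    have h2 : ((x.1 : ℚ)) ^ 3 + a * x.1 + b = 0 := by exact_mod_cast x.2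
    rw [h2]
    norm_num
  -- a point is of order two iff its second coordinate is zero
  have hneg : ∀ (x y : ℚ) (hh : (crv (a : ℚ) (b : ℚ)).toAffine.Nonsingular x y),
      (2 : ℤ) • (Affine.Point.some x y hh : Pt (a : ℚ) (b : ℚ)) = 0 ↔ y = 0 := by
    intro x y hh
    rw [two_zsmul, ← eq_neg_iff_add_eq_zero, Affine.Point.neg_some, Affine.Point.some.injEq]
    simp only [Affine.negY, true_and]
    constructor
    · intro h1
      have h2 : y = -y := by simpa using h1
      linarith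
    · rintro rfl
      simp
  let f : Option (Rt a b) → (zsmulAddGroupHom (α := Pt (a : ℚ) (b : ℚ)) 2).ker := fun o =>
    match o with
    | none => 0
    | some x => ⟨Affine.Point.some (x.1 : ℚ) 0 (hns x), by
        rw [AddMonoidHom.mem_ker]
        exact (hneg _ _ _).2 rfl⟩
  have hf : Function.Bijective f := by
    constructor
    · rintro (_ | x) (_ | y) hxy
      · rfl
      · exfalso
        have h1 := congrArg Subtype.val hxy
        simp only [f] at h1
        exact Affine.Point.some_ne_zero _ h1.symm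
      · exfalso
        have h1 := congrArg Subtype.val hxy
        simp only [f] at h1
        exact Affine.Point.some_ne_zero _ h1
      · have h1 := congrArg Subtype.val hxy
        simp only [f, Affine.Point.some.injEq] at h1
        congr 1
        apply Subtype.ext
        exact_mod_cast h1.1
    · rintro ⟨P, hP⟩
      rw [AddMonoidHom.mem_ker] at hP
      rcases P with _ | ⟨x, y, hh⟩
      · exact ⟨none, rfl⟩
      · have hy : y = 0 := (hneg x y hh).1 hP
        subst hy
        have he := (eqn_iff _ _ _ _).1 hh.1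
        have he2 : x ^ 3 + a * x + b = 0 := by linarith
        obtain ⟨z, rfl⟩ := root_int he2
        refine ⟨some ⟨z, by exact_mod_cast he2⟩, ?_⟩
        rfl
  have hfin : Finite (Rt a b) := by
    refine Set.Finite.to_subtype (s := {x : ℤ | x ^ 3 + a * x + b = 0}) ?_
    refine (Set.finite_Icc (-(|a| + |b|)) (|a| + |b|)).subset ?_
    intro x hx
    exact abs_le.1 (root_bd hx)
  rw [← Nat.card_congr (Equiv.ofBijective f hf), Finite.card_option, card_Rt, add_comm]

theorem t_MW : S_MW := by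
  intro a b h
  have hfg : AddGroup.FG (Pt (a : ℚ) (b : ℚ)) :=
    Pool.Agent.Q286.EQ.mordell_weil ℚ (crv (a : ℚ) (b : ℚ)) (disc_ne h)
  have hmf : Module.Finite ℤ (Pt (a : ℚ) (b : ℚ)) := Module.Finite.iff_addGroup_fg.2 hfg
  refine ⟨hmf, ?_⟩
  unfold cls
  rw [Pool.Agent.TeamU.card_quot_two, ker_card h]

end Pool.Agent.H116.QR.MW
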